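import Pool.Agent.Lib.MP_329f2d_lc.H59Fin
import Pool.Agent.Lib.MP_329f2d_lc.H43Inf

/-!
From a supercompact cardinal, a countable transitive model of ZFC with a Kurepa tree in which the
subcomplete forcing axiom holds, also for the class given by Jensen's clause without the condition
on hulls.
-/

namespace Pool.Agent.Results.MP_329f2d_lc.NoHullModel

open Pool.Agent.Lib.MP_329f2d_lc

theorem result (k : Cardinal.{0}) (hk : Supercompact k) :
    ∃ W : V, (W : Set V).Countable ∧ ZFC W ∧ SCFA W ∧ InfFA W ∧ Kurepa W := by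
  obtain ⟨W, h1, h2, h3, h4⟩ := final_inf (It.pkg_univ hk)
  exact ⟨W, h1, h2, h3.scfa, h3, h4⟩

end Pool.Agent.Results.MP_329f2d_lc.NoHullModel
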